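import Mathlib
import Pool.Agent.H48Z.RRb

/-!
# Polynomial separation for the Rank-Ramsey function, for every clique number `d ≥ 2`

A signed sum of about `l ^ 2` subcubes of dimension `l` of a binary cube is the indicator of
`{0} ∪ S` with `S` sum-free.  For the Cayley graph of `S`, the square of the rank of `A + I` times
the density of degenerate triangles is below one.  A random sample from a strong power, with one
vertex of each triangle deleted, is triangle-free and has polynomially small rank.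
-/

set_option autoImplicit false

namespace Pool.Agent.Results.MP_95a368_co.PolySeparation

open Filter Asymptotics

open Classical in
/-- `nu d n` is the least real rank of `A_G + I` over the graphs `G` on `n` vertices with clique
number at most `d` -/
noncomputable def nu (d n : ℕ) : ℕ :=
  sInf {r : ℕ | ∃ G : SimpleGraph (Fin n), G.cliqueNum ≤ d ∧ (G.adjMatrix ℝ + 1).rank = r}

theorem cliqueNum_le {n : ℕ} {G : SimpleGraph (Fin n)} (h : G.CliqueFree 3) : G.cliqueNum ≤ 2 := by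
  obtain ⟨s, hs⟩ := G.exists_isNClique_cliqueNum
  by_contra hc
  exact (h.mono (show 3 ≤ G.cliqueNum by omega)) s hs

/-- **Q1 is true.** For every `d ≥ 2` there is `c > 0` with `nu d n = O(n ^ (1 - c))`. -/
theorem result : ∀ d : ℕ, 2 ≤ d → ∃ c : ℝ, 0 < c ∧
    (fun n : ℕ => (nu d n : ℝ)) =O[atTop] (fun n : ℕ => (n : ℝ) ^ (1 - c)) := by
  intro d hd
  obtain ⟨a, ha⟩ := Pool.Agent.H48Z.RR.core
  have ha2 : (0 : ℝ) < (a : ℝ) + 2 := by positivity
  refine ⟨2 / ((a : ℝ) + 2), by positivity, ?_⟩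
  have hγ : 1 - 2 / ((a : ℝ) + 2) = a / ((a : ℝ) + 2) := by field_simp; ring
  rw [hγ]
  set γ : ℝ := a / ((a : ℝ) + 2) with hγdef
  have hγ0 : 0 ≤ γ := by positivity
  have hγ1 : γ ≤ 1 := by rw [hγdef, div_le_one ha2]; linarith
  refine IsBigO.of_bound (2 ^ a * 3) ?_
  filter_upwards [eventually_ge_atTop 1] with m hm
  set b : ℕ := 2 ^ (a + 2) with hb
  have hb1 : 1 < b := Nat.one_lt_two_pow (by omega)
  set t := Nat.clog b (3 * m) with ht
  have h1 : 3 * m ≤ b ^ t := Nat.le_pow_clog hb1 _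
  have h2 : b ^ (t - 1) < 3 * m := Nat.pow_pred_clog_lt_self hb1 (by omega)
  have h3 : 8 * m ^ 2 ≤ (4 ^ (a + 2)) ^ t := by
    have : (4 ^ (a + 2)) ^ t = (b ^ t) ^ 2 := by
      rw [hb, show (4 : ℕ) = 2 ^ 2 from rfl, ← pow_mul, ← pow_mul, ← pow_mul, ← pow_mul]
      congr 1
      ring
    rw [this]
    nlinarith
  obtain ⟨G, hG1, hG2⟩ := ha t m hm h3
  have h4 : nu d m ≤ (2 ^ a) ^ t := by
    refine le_trans ?_ hG2
    unfold nu
    exact Nat.sInf_le ⟨G, (cliqueNum_le hG1).trans hd, rfl⟩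
  have h5 : (2 ^ a) ^ t ≤ 2 ^ a * (2 ^ a) ^ (t - 1) := by
    rw [← pow_succ']
    exact Nat.pow_le_pow_right (by positivity) (by omega)
  have h6 : ((2 : ℝ) ^ a) ^ (t - 1) = (((b ^ (t - 1) : ℕ) : ℝ)) ^ γ := by
    rw [hb]
    push_cast
    rw [← pow_mul, ← pow_mul, ← Real.rpow_natCast, ← Real.rpow_natCast,
      ← Real.rpow_mul (by norm_num)]
    congr 1
    rw [hγdef]
    push_cast
    field_simp
  have h7 : (((b ^ (t - 1) : ℕ) : ℝ)) ^ γ ≤ ((3 : ℝ) * m) ^ γ :=
    Real.rpow_le_rpow (by positivity) (by exact_mod_cast h2.le) hγ0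
  have h8 : ((3 : ℝ) * m) ^ γ ≤ 3 * (m : ℝ) ^ γ := by
    rw [Real.mul_rpow (by norm_num) (by positivity)]
    refine mul_le_mul_of_nonneg_right ?_ (by positivity)
    calc (3 : ℝ) ^ γ ≤ 3 ^ (1 : ℝ) := Real.rpow_le_rpow_of_exponent_le (by norm_num) hγ1
      _ = 3 := Real.rpow_one _
  rw [Real.norm_of_nonneg (by positivity), Real.norm_of_nonneg (by positivity)]
  calc (nu d m : ℝ) ≤ ((2 ^ a * (2 ^ a) ^ (t - 1) : ℕ) : ℝ) := by exact_mod_cast h4.trans h5
    _ = 2 ^ a * ((2 : ℝ) ^ a) ^ (t - 1) := by push_cast; ring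
    _ ≤ 2 ^ a * (3 * (m : ℝ) ^ γ) := by
        rw [h6]
        exact mul_le_mul_of_nonneg_left (h7.trans h8) (by positivity)
    _ = 2 ^ a * 3 * (m : ℝ) ^ γ := by ring

end Pool.Agent.Results.MP_95a368_co.PolySeparation
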